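import Pool.Agent.Run7.h498.BHQ

/-!
# Bounded height for the moduli space of five points on a line

Let `V` be the surface of the points `(x, 1 - x, y, 1 - y, x - y)` of the torus of dimension five
(the moduli space `M_{0,5}` with its units as coordinates).  Every point of `V` lies on an anomalous
curve `x = const`, so that `V^oa` is empty and Habegger's bounded height theorem says nothing about
`V`.  We show that the points of `V` over the algebraic numbers that lie in an algebraic subgroup of
codimension three, and more generally those that lie in a translate of such a subgroup by a point of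
bounded height, have bounded height.
-/

namespace Pool.Agent.Results.MP_c95b3b_ag.BoundedHeightM05

theorem result : ∃ C : ℝ, ∀ (x y : AlgebraicClosure ℚ) (g : Fin 5 → AlgebraicClosure ℚ),
    x ≠ 0 → x ≠ 1 → y ≠ 0 → y ≠ 1 → x ≠ y → (∀ l, g l ≠ 0) →
    -- three independent multiplicative relations between the coordinates of the translate by `g`
    (∃ u : Fin 3 → Fin 5 → ℤ, LinearIndependent ℤ u ∧
      ∀ k, ∏ l, (g l * ![x, 1 - x, y, 1 - y, x - y] l) ^ u k l = 1) →
    NumberField.absLogHeight₁ x + NumberField.absLogHeight₁ y ≤
      C * (1 + ∑ l, NumberField.absLogHeight₁ (g l)) := by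
  obtain ⟨C, hC⟩ := Run7.h498.bh
  exact ⟨C, fun x y g hx0 hx1 hy0 hy1 hxy hg hrel => hC x y g hx0 hx1 hy0 hy1 hxy hg hrel⟩

end Pool.Agent.Results.MP_c95b3b_ag.BoundedHeightM05
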