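import Mathlib
import Pool.Agent.Run7.h280.ZP.Sub

/-!
# Zilber's conjecture for rational points and subgroups with a small image

Let `p_1, ..., p_k` be pairwise coprime polynomials in `n + 1` variables with rational coefficients, the
differences of the exponents of the monomials of each of them spanning the space, and let
`g_1, ..., g_r` be multiplicatively independent rational numbers.  We consider the variety `Y` of
dimension `n + 1` in the torus of dimension `N = r + (n + 1) + m` of the points `(g, x, z)`, where `g` is
fixed and `z_i = y_i x^(A_i) p(x)^(E_i)`, the exponents `E_1, ..., E_m` being linearly independent.  It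
is not contained in a proper algebraic subgroup.

Theorem.  The rational points of `Y` which lie in an algebraic subgroup `H` with
`dim Y + dim H ≤ N - 1` whose image `H'` in the torus of dimension `N' = r + (n + 1)` of the coordinates
`(g, x)` satisfies `dim Y + dim H' ≤ N'` are not Zariski dense in `Y`.

## The proof

By the relations between `g` and `x` the coordinates of `x` are `S`-units.  The greatest common divisor
of the values of two of the polynomials at `S`-unit points outside a proper closed set is small compared
with the height of the point (`Pool.Agent.Run7.h280.ZP.Gcd`, from the subspace theorem as in the work of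
Corvaja, Zannier and Levin).  In a multiplicative relation between the `p_κ(x)` modulo `S`-units the
value with the largest exponent divides the product of its greatest common divisors with the other
values, up to `S`-units, and so it is an `S`-unit times a small number.  By the subspace theorem this is
not possible for generic `x` (`Pool.Agent.Run7.h280.ZP.Free`).
-/

set_option autoImplicit false

namespace Pool.Agent.Results.MP_c95b3b_ag.CoprimeValues

open Pool.Agent.Run7.h280.ZP

/-- The exponents of the monomials of the polynomial `q` are not contained in a proper affine subspace. -/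
def Spans {d : ℕ} (q : MvPolynomial (Fin d) ℚ) : Prop :=
  ∀ c : Fin d → ℤ, (∀ a ∈ q.support, ∀ a' ∈ q.support,
    ∑ j, c j * ((a j : ℤ) - (a' j : ℤ)) = 0) → c = 0

/-- The data which define the variety of the points `(g, x, z)` with `z_i = y_i x^(A_i) p(x)^(E_i)`. -/
structure VarietyData (d k m r : ℕ) where
  /-- the constant coordinates, multiplicatively independent -/
  g : Fin r → ℚˣ
  independent : ∀ b : Fin r → ℤ, ∏ i, g i ^ b i = 1 → b = 0
  /-- the polynomials, pairwise coprime -/
  p : Fin k → MvPolynomial (Fin d) ℚ
  spans : ∀ κ, Spans (p κ)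
  coprime : ∀ κ κ', κ ≠ κ' → IsRelPrime (p κ) (p κ')
  y : Fin m → ℚˣ
  A : Fin m → Fin d → ℤ
  /-- linearly independent exponents -/
  E : Fin m → Fin k → ℤ
  linearIndependent : LinearIndependent ℤ E

/-- `(g, x, z)` is a (rational) point of the variety. -/
def VarietyData.IsPoint {d k m r : ℕ} (V : VarietyData d k m r) (x : Fin d → ℚˣ)
    (z : Fin m → ℚˣ) : Prop :=
  ∃ v : Fin k → ℚˣ, (∀ κ, (v κ : ℚ) = MvPolynomial.aeval (fun j => (x j : ℚ)) (V.p κ)) ∧
    ∀ i, z i = V.y i * (∏ j, x j ^ V.A i j) * ∏ κ, v κ ^ V.E i κ

/-- The coordinates of the point `(g, x, z)`. -/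
def point {r d m : ℕ} (g : Fin r → ℚˣ) (x : Fin d → ℚˣ) (z : Fin m → ℚˣ) :
    Fin r ⊕ Fin d ⊕ Fin m → ℚˣ :=
  Sum.elim g (Sum.elim x z)

/-- The point `(g, x, z)` lies in an algebraic subgroup of codimension at least `d + 1` whose image in
the torus of the `(g, x)` has codimension at least `d`: there are `d + 1` linearly independent
characters which are trivial at the point, and the first `d` of them do not involve `z`. -/
def InSubgroup {r d m : ℕ} (g : Fin r → ℚˣ) (x : Fin d → ℚˣ) (z : Fin m → ℚˣ) : Prop :=
  ∃ e : Fin (d + 1) → (Fin r ⊕ Fin d ⊕ Fin m) → ℤ, LinearIndependent ℤ e ∧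
    (∀ (i : Fin d) (t : Fin m), e i.castSucc (Sum.inr (Sum.inr t)) = 0) ∧
    ∀ i, ∏ t, point g x z t ^ e i t = 1

/-- **The rational points of `Y` in algebraic subgroups `H` with `dim Y + dim H < N` and
`dim Y + dim H' ≤ N'` are not Zariski dense in `Y`.** -/
theorem result (n k m r : ℕ) (V : VarietyData (n + 1) k m r) :
    ∃ Φ : MvPolynomial (Fin (n + 1)) ℚ, Φ ≠ 0 ∧ ∀ (x : Fin (n + 1) → ℚˣ) (z : Fin m → ℚˣ),
      V.IsPoint x z → InSubgroup V.g x z → MvPolynomial.aeval (fun j => (x j : ℚ)) Φ = 0 := by
  obtain ⟨Φ, hΦ, H⟩ := rel_main n k m r V.g V.independent V.p V.spans V.coprime V.y V.A V.E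
    V.linearIndependent
  refine ⟨Φ, hΦ, ?_⟩
  rintro x z ⟨v, hv, hz⟩ ⟨e, he, h0, he1⟩
  exact H x z v hv hz e he h0 he1

end Pool.Agent.Results.MP_c95b3b_ag.CoprimeValues
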