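import Pool.Agent.Run7.h498.GZ.V3

/-!
# Zilber's conjecture for surfaces fibred over the curves `(s, 1 - s, f(s))`

Let `f(s) = ∏ (s - β_i) ^ m_i` be a rational function with algebraic zeros and poles `β_i ≠ 0, 1` (for
instance a polynomial), `g_j` nonzero algebraic numbers, and `C` the curve of the points
`(g_0 s, g_1 (1 - s), g_2 f(s))` of the torus of dimension three.  Let `F(s, y) = ∑ α_k(s) y ^ e_k` be a
polynomial over the field `Q̄` of algebraic numbers in `s` and `y = (y_0, y_1)` with exponents that do
not lie on a line and are not centrally symmetric, which is irreducible in `y` for all but finitely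
many `s`.  Let `V` be the surface of the points `(g_0 s, g_1 (1 - s), g_2 f(s), y)` of the torus of
dimension five with `F(s, y) = 0`, or its preimage under an isogeny `x ↦ x ^ E`.  Each point of `V`
lies on an anomalous curve (the fibre over `s`), so that `V^oa` is empty.

We show, if `m = ∑ m_i` is not zero, and `m_i ≠ m` for each `i` such that `β_i` has a real conjugate:
there are finitely many nonzero integer vectors `u` such that each point of `V` (over any extension
field of `Q̄`) whose coordinates satisfy three independent multiplicative relations satisfies one of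
the relations `x ^ u = 1`.  So the set `U(V)` lies in finitely many proper algebraic subgroups.

The condition holds for all polynomials `f` with at least two different zeros, and for the lines
`(s, 1 - s, s - β)` such that no conjugate of `β` is real, with arbitrary coefficients `g_j`.

## The proof

A theorem of the starting files (`FibredSurfaces`, Y740) shows this for all base curves `C` which are
scattered: in every complex embedding, two independent real relations between the `log |z_j|` hold
at finitely many points of each compact set.  There it is proved for lines.  Here it is proved for the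
curves above.  If it fails, there are infinitely many points `s` in a compact set such that the
logarithms of `|s|`, `|1 - s|`, `|f(s)|` lie on a line.  So a real analytic function of one real
variable `t` is identically zero, and for each real `t` there are complex numbers `X, X'` such that
`X X' = A e^(a t)`, `(1 - X) (1 - X') = B e^(b t)` and
`|∏ ((X - β_i) (X' - conj β_i)) ^ m_i| = C e^(c t)`.  Here `a` and `b` are not both zero.  The
asymptotic behaviour of the factors for `t → ∞` and `t → -∞` gives `c` in two ways, which
contradict each other.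
-/

open Polynomial

namespace Pool.Agent.Results.MP_c95b3b_ag.FibredOverGraphs

theorem result (r n : ℕ)
    -- the base curve `(g_0 s, g_1 (1 - s), g_2 ∏ (s - β_i) ^ m_i)`
    (β : Fin r → AlgebraicClosure ℚ) (hβ : Function.Injective β) (hβ0 : ∀ i, β i ≠ 0)
    (hβ1 : ∀ i, β i ≠ 1) (m : Fin r → ℤ)
    (g : Fin 3 → AlgebraicClosure ℚ) (hg : ∀ j, g j ≠ 0)
    -- the total degree is not zero, and it is different from the exponents of the `β_i` which
    -- have a real conjugate
    (hm : ∑ i, m i ≠ 0)
    (hm' : ∀ i, m i = ∑ k, m k → ∀ Ψ : AlgebraicClosure ℚ →+* ℂ, (Ψ (β i)).im ≠ 0)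
    -- the fibres
    (α : Fin (n + 1) → (AlgebraicClosure ℚ)[X]) (hα : ∀ k, α k ≠ 0)
    (e : Fin (n + 1) → Fin 2 → ℕ) (he : Function.Injective e)
    -- the exponents do not lie on a line
    (hspan : LinearIndependent ℤ (fun (i : Fin 2) (k : Fin (n + 1)) =>
      (e k i : ℤ) - (e 0 i : ℤ)))
    -- for all but finitely many values of `s` the polynomial `F(s, y)` is irreducible
    (hirr : {s : AlgebraicClosure ℚ | ¬ Irreducible
      (∑ k, MvPolynomial.monomial (Finsupp.equivFunOnFinite.symm (e k)) ((α k).eval s) :
        MvPolynomial (Fin 2) (AlgebraicClosure ℚ))}.Finite)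
    -- the exponents are not centrally symmetric
    (hR : ¬ ∃ v : Fin 2 → ℕ, ∀ k, ∃ l, e k + e l = v)
    -- an isogeny
    (E : Matrix (Fin 3 ⊕ Fin 2) (Fin 3 ⊕ Fin 2) ℤ) (hE : E.det ≠ 0) :
    ∃ U : Finset (Fin 3 ⊕ Fin 2 → ℤ), (∀ u ∈ U, u ≠ 0) ∧
      ∀ (L : Type) [Field L] [Algebra (AlgebraicClosure ℚ) L] (s : L)
        (x : Fin 3 ⊕ Fin 2 → L) (y : Fin 2 → L),
        -- `x` is a point of the torus of dimension five
        (∀ k, x k ≠ 0) →
        -- it lies on `V`
        ∏ l, x l ^ E (Sum.inl 0) l = algebraMap (AlgebraicClosure ℚ) L (g 0) * s →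
        ∏ l, x l ^ E (Sum.inl 1) l = algebraMap (AlgebraicClosure ℚ) L (g 1) * (1 - s) →
        ∏ l, x l ^ E (Sum.inl 2) l = algebraMap (AlgebraicClosure ℚ) L (g 2) *
          ∏ i, (s - algebraMap (AlgebraicClosure ℚ) L (β i)) ^ m i →
        (∀ i, ∏ l, x l ^ E (Sum.inr i) l = y i) →
        ∑ k, aeval s (α k) * ∏ i, y i ^ e k i = 0 →
        -- its coordinates satisfy three independent multiplicative relations
        (∃ u : Fin 3 → (Fin 3 ⊕ Fin 2) → ℤ, LinearIndependent ℤ u ∧
          ∀ k, ∏ l, x l ^ u k l = 1) →
        ∃ u ∈ U, ∏ l, x l ^ u l = 1 :=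
  Run7.h498.GZ.fibred_graph β hβ hβ0 hβ1 m hm hm' g hg α hα e he hspan hirr hR E hE

end Pool.Agent.Results.MP_c95b3b_ag.FibredOverGraphs
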