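import Pool.Agent.N943.TS.Sys
import Pool.Agent.Run7.h823.WF.Exact
import Pool.Agent.Run7.h823.WF.Ex

/-!
# MP_c95b3b_ag: Zilber's conjecture for all sparse systems with coefficients built from the members of sparse families of
# vectors of residues: the first `m ^ ε` terms of linear recurrences modulo `m`

Let `A_1, …, A_r` be arbitrary finite nonempty sets of exponents in `ℤ^n` and let `V_b` be the
subvariety of the torus `(ℂ^×)^n` defined by the `r` Laurent polynomials
`f_j = ∑_{α ∈ A_j} b_jα x ^ α` (`sparseSystem A b`; every subvariety of the torus is of this form). We consider the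
coefficients

`b_jα = a_jα ∏_{l < L} |v_l| ^ e_l(j, α)`

with arbitrary nonzero complex numbers `a_jα` and integral exponents `e_l(j, α)` (positive or negative) in general
position (`GeneralPosition`), as in the starting file `OneNullSetSystems`. The vector `v = c₀ + y_i` runs through
an arbitrary family `y_i`, `i ∈ t`, of vectors of `L` residues modulo an integer `q` (represented by the least residues)
whose Fourier coefficients at the nonzero frequencies are at most `q ^ (-β)` times their number, `q` large. For all but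
`ε |t|` of its members

* every irreducible subset `W` of the intersection of `V_b` with a coset `η H` of an algebraic
  subgroup, such that powers of all the coordinates of `η` are in a given finitely generated group `Γ` (for `Γ = 1`: with a
  torsion coset), satisfies `dim W ≤ n - r - codim H`; in particular all components `Y` of `V_b` have
  dimension `n - r`, and there are no atypical intersections with special subvarieties;
* `V_b` has no point on algebraic subgroups of dimension less than `r`, so that the set `U(Y)` of the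
  problem is empty for all components `Y` of `V_b`.

The family can be very sparse: examples (of vectors with `r` coordinates) are

* the values `(u_1(n), …, u_r(n))`, `n < N`, of `r` linear recurrences modulo a prime `m` with linearly independent vectors
  of coefficients, as soon as `N ≥ m ^ ε` and the roots and their quotients have orders `≥ m ^ ε`;
* the vectors `(x_1 b_1 ^ n, …, x_r b_r ^ n)`, `n < N`, `N ≥ m ^ ε`, for fixed different integers `b_j ≥ 2` and
  all `x_j ≠ 0`, modulo all but `C X ^ ε` of the primes `m ≤ X`.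

In these examples only `m ^ ε` of the `m ^ r` vectors of the box occur.

From Mathlib: `ZMod.stdAddChar`: the additive character `j ↦ exp (2 π i j / q)` of the integers modulo `q`; `ZMod.val`: the
least residue.

In the starting results the vectors run through boxes, sequences of integer parts of generalised polynomials, S-units, and
random orbits.

Proof: as in the starting file `OneNullSetSystems` (helper943); families with small Fourier coefficients are well distributed modulo all integers up to a power of `q`; the Fourier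
coefficients of short recurrences are estimated by the method of Bourgain, Glibichuk and Konyagin
(`Pool.Agent.Run7.h823.BK`).
-/

set_option autoImplicit false

namespace Pool.Agent.Results.MP_c95b3b_ag.ResidueVectors

open MvPolynomial Pool.Agent.H173R3.ZT Finset
open Pool.Agent.Results.MP_b7926e_nt.NoAtypical (coset idealOf dim mem_idealOf)
open Pool.Agent.Results.MP_c95b3b_ag.SUnitSystems (Coeff sparseSystem U ext ext_mem sys_eq Typical
  U_empty)

/-- The Fourier coefficients of the vectors of residues `y i`, `i ∈ s`, modulo `q` at the nonzero frequencies are at most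
`η` times the number of the vectors: `|∑ i ∈ s, e(h·y_i / q)| ≤ η |s|` for all vectors `h ≠ 0` modulo `q`. -/
def Flat {τ ι : Type} [Fintype ι] (q : ℕ) [NeZero q] (η : ℝ) (s : Finset τ) (y : τ → ι → ZMod q) : Prop :=
  ∀ h : ι → ZMod q, h ≠ 0 → ‖∑ i ∈ s, (ZMod.stdAddChar (∑ j, h j * y i j) : ℂ)‖ ≤ η * s.card

/-- The integral vector `c₀ + y_i`, with the least residues `0 ≤ y_i < q`. -/
def vec {τ ι : Type} {q : ℕ} (y : τ → ι → ZMod q) (c₀ : ι → ℤ) (i : τ) (j : ι) : ℤ := c₀ j + ((y i j).val : ℕ)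

/-- Every irreducible subset `W` of the intersection of the system of `r` equations with a coset `η H`
of an algebraic subgroup `H`, such that a power of every coordinate of `η` is in `Γ`, satisfies
`dim W ≤ n - r - codim H`, where `codim H = rank M`. -/
def NoAtypical {n r : ℕ} (Γ : Subgroup ℂˣ) (A : Fin r → Finset (Fin n → ℤ)) (b : Coeff A → ℂ) :
    Prop :=
  ∀ (M : Submodule ℤ (Fin n → ℤ)) (η : Fin n → ℂ),
    (∀ l, ∃ m : ℕ, 0 < m ∧ ∃ γ ∈ Γ, η l ^ m = (γ : ℂ)) →
    ∀ W : Set (Fin n → ℂ), W ⊆ sparseSystem A b → W ⊆ coset M η → (idealOf W).IsPrime →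
      dim W + (r : Cardinal) + (Module.finrank ℤ M : Cardinal) ≤ (n : Cardinal)

/-- For any two different elements `f j`, `g j` of `A_j`, for each `j`, and every `k ≠ 0` the number
`∑_j k_j (e_l(j, f j) - e_l(j, g j))` is zero for at most `s` indices `l`. -/
def GeneralPosition {n r L : ℕ} (A : Fin r → Finset (Fin n → ℤ)) (s : ℕ)
    (e : Fin L → Coeff A → ℤ) : Prop :=
  ∀ f g : (j : Fin r) → {α // α ∈ A j}, (∀ j, f j ≠ g j) → ∀ k : Fin r → ℤ, k ≠ 0 →
    {l | ∑ j, k j * (e l ⟨j, f j⟩ - e l ⟨j, g j⟩) = 0}.ncard ≤ s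

/-- the case of given primes -/
theorem sparse_good {n r : ℕ} (A : Fin r → Finset (Fin n → ℤ)) (hA : ∀ j, (A j).Nonempty)
    (a : Coeff A → ℂ) (ha : ∀ x, a x ≠ 0) (G₀ : Finset ℂˣ) :
    ∃ D : ℕ, ∀ L s : ℕ, (∏ j, (A j).card * ((A j).card - 1)) * s < L →
      ∀ q : Fin L → ℕ, (∀ i, (q i).Prime ∧ D < q i) →
      ∀ e : Fin L → Coeff A → ℤ, GeneralPosition A s e → ∀ g : Coeff A → ℂ, (∀ x, g x ≠ 0) →
      (∀ i x, ∀ O : ValuationSubring ℂ, (q i : ℂ) ∈ O.nonunits →
        O.valuation (g x) = O.valuation (q i : ℂ) ^ (e i x)) →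
      NoAtypical (Subgroup.closure (G₀ : Set ℂˣ)) A (fun x => a x * g x) := by
  classical
  set S : Finset ℂ := (Finset.univ.image a) ∪ G₀.image (fun c : ℂˣ => (c : ℂ)) with hS
  obtain ⟨D, hD⟩ := Pool.Agent.W466.ZC.exists_val (ι := {u // u ∈ S ∪ S.image fun u => u⁻¹})
    (fun u => (u : ℂ))
  refine ⟨D, fun L s hL q hq e he g hg0 hg M η hη W hWV hWT hW => ?_⟩
  by_contra hcon
  rw [not_le] at hcon
  choose O hO1 hO2 using fun i : Fin L => hD (q i) (hq i).1 (hq i).2
  have hO : ∀ i, (O i).valuation (q i : ℂ) < 1 := fun i => by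
    have := hO1 i
    rwa [ValuationSubring.mem_nonunits_iff] at this
  have hsO : ∀ i, ∀ u ∈ S, u ≠ 0 → (O i).valuation u = 1 := by
    intro i u hu hu0
    have h1 : u ∈ O i := hO2 i ⟨u, Finset.mem_union_left _ hu⟩
    have h2 : u⁻¹ ∈ O i := hO2 i ⟨u⁻¹, Finset.mem_union_right _ (Finset.mem_image_of_mem _ hu)⟩
    have h3 : (O i).valuation u ≤ 1 := ((O i).valuation_le_one_iff u).2 h1
    have h4 : (O i).valuation u⁻¹ ≤ 1 := ((O i).valuation_le_one_iff _).2 h2
    refine le_antisymm h3 ?_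
    have h5 : (O i).valuation u * (O i).valuation u⁻¹ = 1 := by
      rw [← map_mul, mul_inv_cancel₀ hu0, map_one]
    calc (1 : _) = (O i).valuation u * (O i).valuation u⁻¹ := h5.symm
      _ ≤ (O i).valuation u * 1 := by gcongr
      _ = (O i).valuation u := mul_one _
  have hη0 : ∀ l, η l ≠ 0 := by
    intro l h0
    obtain ⟨m, hm, γ, -, hγ⟩ := hη l
    rw [h0, zero_pow hm.ne'] at hγ
    exact γ.ne_zero hγ.symm
  have hηO : ∀ i l, (O i).valuation (η l) = 1 := by
    intro i l
    obtain ⟨m, hm, γ, hγΓ, hγ⟩ := hη l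
    have h1 : (O i).valuation (γ : ℂ) = 1 := by
      refine val_closure G₀ (fun u hu => hsO i _ ?_ u.ne_zero) γ hγΓ
      rw [hS]
      exact Finset.mem_union_right _ (Finset.mem_image_of_mem _ hu)
    have h2 := congrArg (O i).valuation hγ
    rw [map_pow, h1] at h2
    exact (pow_eq_one_iff_of_nonneg zero_le hm.ne').1 h2
  have haO : ∀ i x, (O i).valuation (a x) = 1 := fun i x => hsO i _
    (by rw [hS]; exact Finset.mem_union_left _ (Finset.mem_image_of_mem _ (Finset.mem_univ x)))
    (ha x)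
  let ex : Fin L → Fin r → (Fin n → ℤ) → ℤ := fun i j α =>
    if h : α ∈ A j then e i ⟨j, α, h⟩ else 0
  have hex : ∀ i j α (h : α ∈ A j), ex i j α = e i ⟨j, α, h⟩ := fun i j α h => dif_pos h
  obtain ⟨σ, hσ, k, hk, hlt⟩ := Pool.Agent.N943.TS.sys_val A hA L s
    (by rwa [Pool.Agent.TH526.ZT.card_pairs]) O (fun i => (q i : ℂ)) hO
    (fun i => Nat.cast_ne_zero.2 (hq i).1.ne_zero) (ext A fun x => a x * g x)
    (fun j α hα => by rw [ext_mem A _ j α hα]; exact mul_ne_zero (ha _) (hg0 _))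
    ex
    (fun i j α hα => by
      rw [ext_mem A _ j α hα, map_mul, haO, one_mul, hex i j α hα]
      exact hg i _ (O i) (hO1 i))
    M η hη0 hηO W (by rw [sys_eq]; exact hWV) hWT hW hcon
  have hσA : ∀ j, (σ j).1 ∈ A j ∧ (σ j).2 ∈ A j ∧ (σ j).1 ≠ (σ j).2 := fun j => by
    have := Fintype.mem_piFinset.1 hσ j
    rwa [Finset.mem_offDiag] at this
  have h1 := he (fun j => ⟨(σ j).1, (hσA j).1⟩) (fun j => ⟨(σ j).2, (hσA j).2.1⟩)
    (fun j h => (hσA j).2.2 (congrArg Subtype.val h)) k hk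
  have h2 : {i | ∑ j, k j * (ex i j (σ j).1 - ex i j (σ j).2) = 0} =
      {l | ∑ j, k j * (e l ⟨j, (σ j).1, (hσA j).1⟩ - e l ⟨j, (σ j).2, (hσA j).2.1⟩) = 0} := by
    ext l
    simp only [Set.mem_setOf_eq]
    rw [Finset.sum_congr rfl fun j _ => by
      rw [hex l j _ (hσA j).1, hex l j _ (hσA j).2.1]]
  rw [h2] at hlt
  exact absurd h1 (not_le.2 hlt)

theorem typical_of_noAtypical {n r : ℕ} {Γ : Subgroup ℂˣ} {A : Fin r → Finset (Fin n → ℤ)}
    {b : Coeff A → ℂ} (h : NoAtypical Γ A b) : Typical A b := by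
  intro M η hη W hWV hWT hW
  exact h M η (fun l => by
    obtain ⟨m, hm, h1⟩ := hη
    exact ⟨m, hm, 1, Subgroup.one_mem _, by rw [h1 l, Units.val_one]⟩) W hWV hWT hW

/-- **Theorem.** (1) For all nonempty finite sets `A_j ⊂ ℤ^n` of exponents, nonzero complex numbers `u_jα`, finitely
generated groups `Γ`, all `L`, `s` and exponents `e` in general position (`s ∏ |A_j| (|A_j| - 1) < L`), and all
`β, ε > 0`: for all large `q`, all families `y_i`, `i ∈ t`, of vectors of `L` residues modulo `q` with Fourier coefficients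
at most `q ^ (-β) |t|`, and all integral vectors `c₀`, for all but at most `ε |t|` of the members `v = c₀ + y_i` the system
with the coefficients `u_jα ∏_l |v_l| ^ e_l(j, α)` has no atypical intersections with the cosets `η H`, `η` in the division
hull of `Γ`, and its set `U` is empty.

(2) Examples: short linear recurrences. (3) Examples: the first powers of fixed integers, modulo all but `C X ^ ε` of the
primes `m ≤ X`. -/
theorem result :
    (∀ (n r : ℕ) (A : Fin r → Finset (Fin n → ℤ)), (∀ j, (A j).Nonempty) →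
      ∀ u : Coeff A → ℂ, (∀ x, u x ≠ 0) → ∀ Γ : Subgroup ℂˣ, Γ.FG →
      ∀ L s : ℕ, (∏ j, (A j).card * ((A j).card - 1)) * s < L →
      ∀ e : Fin L → Coeff A → ℤ, GeneralPosition A s e →
      ∀ β ε : ℝ, 0 < β → 0 < ε → ∃ q₀ : ℕ, ∀ (q : ℕ) [NeZero q], q₀ ≤ q →
      ∀ (τ : Type) (t : Finset τ) (y : τ → Fin L → ZMod q), Flat q ((q : ℝ) ^ (-β)) t y → ∀ c₀ : Fin L → ℤ,
      ({i : τ | i ∈ t ∧ ¬ (NoAtypical Γ A (fun x => u x * ∏ l : Fin L, ((vec y c₀ i l).natAbs : ℂ) ^ e l x) ∧
        U A (fun x => u x * ∏ l : Fin L, ((vec y c₀ i l).natAbs : ℂ) ^ e l x) = ∅)}.ncard : ℝ) ≤ ε * t.card) ∧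
    (∀ (k : ℕ) (ε : ℝ), 0 < ε → ∃ β : ℝ, 0 < β ∧ ∃ m₀ : ℕ, ∀ (m : ℕ) [Fact m.Prime], m₀ ≤ m →
      ∀ (ι : Type) [Fintype ι] (c : ι → Fin k → ZMod m) (g : Fin k → (ZMod m)ˣ) (N : ℕ), LinearIndependent (ZMod m) c →
      (∀ i, (m : ℝ) ^ ε ≤ orderOf (g i)) → (∀ i j, i ≠ j → (m : ℝ) ^ ε ≤ orderOf (g i / g j)) → (m : ℝ) ^ ε ≤ N →
      Flat m ((m : ℝ) ^ (-β)) (range N) (fun n j => ∑ i, c j i * (g i : ZMod m) ^ n)) ∧
    (∀ (ι : Type) [Fintype ι] (ε : ℝ), 0 < ε → ∃ β : ℝ, 0 < β ∧ ∀ b : ι → ℕ, (∀ j, 2 ≤ b j) → Function.Injective b →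
      ∃ C : ℝ, ∀ X : ℕ, 1 ≤ X → ∀ Q : Finset ℕ,
      (∀ m ∈ Q, m ≤ X ∧ ∃ _ : Fact m.Prime, ¬ ∀ N : ℕ, (m : ℝ) ^ ε ≤ N → ∀ x : ι → ZMod m, (∀ j, x j ≠ 0) →
        Flat m ((m : ℝ) ^ (-β)) (range N) (fun n j => x j * (b j : ZMod m) ^ n)) →
      (Q.card : ℝ) ≤ C * (X : ℝ) ^ ε) := by
  refine ⟨?_, fun k ε hε => Pool.Agent.Run7.h823.WF.flat_rec' k hε,
    fun ι _ ε hε => Pool.Agent.Run7.h823.WF.flat_pow' ι hε⟩
  intro n r A hA u hu Γ hΓ L s hL e he β ε hβ hε
  obtain ⟨G₀, hG₀⟩ := hΓ
  obtain ⟨D, hD⟩ := sparse_good A hA u hu G₀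
  obtain ⟨q₀, h⟩ := Pool.Agent.Run7.h823.WF.Exa.residues (ι := Fin L) hβ D ε hε
  refine ⟨q₀, fun q _ hq τ t y hf c₀ => le_trans ?_ (h τ q hq t y c₀ hf)⟩
  apply Pool.Agent.Run7.h823.WF.ncard_mono
  intro i _ ht hgood
  apply ht
  change ∀ l : Fin L, ∃ p : ℕ, p.Prime ∧ D < p ∧ Pool.Agent.Run7.h823.WF.Exa.Ex l p (vec y c₀ i) at hgood
  obtain ⟨value, hvalue⟩ : ∃ value : Fin L → ℕ, value = fun l => (vec y c₀ i l).natAbs := ⟨_, rfl⟩
  choose p hp1 hp2 hp3 hp4 hp5 using hgood
  -- the divisibilities for the absolute values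
  have hd1 : ∀ l : Fin L, p l ∣ value l := fun l => by
    rw [hvalue]
    exact Int.natCast_dvd.mp (hp3 l)
  have hd2 : ∀ l : Fin L, ¬ p l ^ 2 ∣ value l := by
    intro l hd
    apply hp4 l
    rw [hvalue] at hd
    have := Int.natCast_dvd.mpr hd
    push_cast at this
    exact this
  have hd3 : ∀ l l' : Fin L, l' ≠ l → ¬ p l ∣ value l' := fun l l' hl' hd =>
    hp5 l l' hl' (Int.natCast_dvd.mpr (by rw [hvalue] at hd; exact hd))
  have hne : ∀ l : Fin L, (value l : ℂ) ≠ 0 := by
    intro l h0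
    apply hd2 l
    have h4 : value l = 0 := by exact_mod_cast h0
    rw [h4]
    exact dvd_zero _
  have hunit : ∀ (l : Fin L) (O : ValuationSubring ℂ), (p l : ℂ) ∈ O.nonunits →
      ∀ k : ℕ, ¬ p l ∣ k → O.valuation (k : ℂ) = 1 := by
    intro l O hO k hk
    rw [ValuationSubring.mem_nonunits_iff] at hO
    have h4 : IsCoprime (k : ℤ) ((p l : ℕ) : ℤ) :=
      Nat.isCoprime_iff_coprime.2 (((hp1 l).coprime_iff_not_dvd.2 hk).symm)
    have h5 := Pool.Agent.H173R3.ZT.val_int_eq_one O hO h4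
    simpa using h5
  have hgood' : NoAtypical (Subgroup.closure (G₀ : Set ℂˣ)) A (fun x => u x *
      ∏ l : Fin L, (value l : ℂ) ^ e l x) := by
    refine hD L s hL (fun l => p l) (fun l => ⟨hp1 l, hp2 l⟩) e he _
      (fun j => Finset.prod_ne_zero_iff.2 fun l _ => zpow_ne_zero _ (hne l)) (fun i j O hO => ?_)
    rw [map_prod, Finset.prod_eq_single i]
    · rw [map_zpow₀]
      congr 1
      obtain ⟨k, hk⟩ := hd1 i
      have hk2 : ¬ p i ∣ k := by
        rintro ⟨r, hr⟩
        apply hd2 i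
        rw [hk, hr]
        exact ⟨r, by ring⟩
      rw [hk]
      push_cast
      rw [map_mul, hunit i O hO k hk2, mul_one]
    · intro l _ hl
      rw [map_zpow₀, hunit i O hO _ (hd3 i l hl), one_zpow]
    · intro hi
      exact absurd (Finset.mem_univ i) hi
  rw [hG₀] at hgood'
  have hfin := And.intro hgood' (U_empty A _ (typical_of_noAtypical hgood'))
  rw [hvalue] at hfin
  exact hfin

end Pool.Agent.Results.MP_c95b3b_ag.ResidueVectors
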